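import Pool.Agent.TH708.Dsh.Core
import Pool.Agent.TH708.Ari.Rk

set_option linter.unusedSectionVars false
set_option autoImplicit false

/-!
# Arithmetic formulas whose product gates share few variables
-/

namespace Pool.Agent.TH708.Ash

open Finset
open Pool.Agent.TH708.Dec (sq_nonneg sq_add pow_le_sq sq_two_mul inter_sdiff_card NB)
open Pool.Agent.TH708.Ari (Dep RkLe)

/-- Arithmetic formulas whose leaves are tracked variables, arbitrary functions of a side input, or
zero. -/
inductive AF (V R K : Type) : Type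
  | var (i : V)
  | side (g : R → K)
  | zer
  | add (F G : AF V R K)
  | mul (F G : AF V R K)

namespace AF

variable {V R K : Type} [Field K] [DecidableEq V]

/-- The value. -/
def eval (r : R) (x : V → Bool) : AF V R K → K
  | var i => if x i = true then 1 else 0
  | side g => g r
  | zer => 0
  | add F G => eval r x F + eval r x G
  | mul F G => eval r x F * eval r x G

/-- The number of leaves that are not zero. -/
def L : AF V R K → ℕ
  | var _ => 1
  | side _ => 1
  | zer => 0
  | add F G => L F + L G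
  | mul F G => L F + L G

/-- The tracked variables that are read. -/
def occ : AF V R K → Finset V
  | var i => {i}
  | side _ => ∅
  | zer => ∅
  | add F G => occ F ∪ occ G
  | mul F G => occ F ∪ occ G

/-- The largest sum, over a path, of the numbers of tracked variables which both factors of a
product gate read. -/
def shr : AF V R K → ℕ
  | var _ => 0
  | side _ => 0
  | zer => 0
  | mul F G => (occ F ∩ occ G).card + max (shr F) (shr G)
  | add F G => max (shr F) (shr G)

theorem dep (F : AF V R K) (r : R) : Dep (occ F) (fun x => eval r x F) := by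
  intro x y
  induction F with
  | var i => intro h; simp only [eval]; rw [h i (by simp [occ])]
  | side g => intro _; rfl
  | zer => intro _; rfl
  | add F G ihF ihG =>
    intro h
    simp only [eval] at *
    rw [ihF fun i hi => h i (mem_union_left _ hi), ihG fun i hi => h i (mem_union_right _ hi)]
  | mul F G ihF ihG =>
    intro h
    simp only [eval] at *
    rw [ihF fun i hi => h i (mem_union_left _ hi), ihG fun i hi => h i (mem_union_right _ hi)]

theorem eval_of_L_zero (F : AF V R K) (h : L F = 0) (r : R) (x : V → Bool) :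
    eval r x F = 0 := by
  induction F with
  | var i => simp [L] at h
  | side g => simp [L] at h
  | zer => rfl
  | add F G ihF ihG =>
    simp only [L] at h
    simp [eval, ihF (by omega), ihG (by omega)]
  | mul F G ihF ihG =>
    simp only [L] at h
    simp [eval, ihF (by omega)]

theorem one_le_L_of_occ (F : AF V R K) (h : (occ F).Nonempty) : 1 ≤ L F := by
  induction F with
  | var i => simp [L]
  | side g => simp [L]
  | zer => simp [occ] at h
  | add F G ihF ihG =>
    simp only [L]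
    rw [occ, union_nonempty] at h
    rcases h with h | h
    · have := ihF h; omega
    · have := ihG h; omega
  | mul F G ihF ihG =>
    simp only [L]
    rw [occ, union_nonempty] at h
    rcases h with h | h
    · have := ihF h; omega
    · have := ihG h; omega

/-- **Splitting.** -/
theorem split (N : ℕ) (hN : 2 ≤ N) (F : AF V R K) (hF : 2 * N < 3 * (occ F).card) :
    ∃ (F₀ u S : AF V R K) (M : Finset V),
      (∀ r x, eval r x F = eval r x F₀ + eval r x u * eval r x S) ∧
      L F₀ + L u ≤ L F ∧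
      occ F₀ ⊆ occ F ∧ occ u ⊆ occ F ∧ occ S ⊆ occ F ∧
      occ S ∩ occ u ⊆ M ∧ M.card + shr u ≤ shr F ∧ shr F₀ ≤ shr F ∧
      N < 3 * (occ u).card ∧ 3 * (occ u).card ≤ 2 * N := by
  induction F with
  | var i => simp [occ] at hF; omega
  | side g => simp [occ] at hF
  | zer => simp [occ] at hF
  | add F G ihF ihG =>
    rw [occ] at hF
    have hcard := card_union_le (occ F) (occ G)
    rcases le_total (occ G).card (occ F).card with hle | hle
    · by_cases hs : 3 * (occ F).card ≤ 2 * N
      · refine ⟨add zer G, F, side (fun _ => 1), ∅, ?_, ?_, ?_, ?_, ?_, ?_, ?_, ?_, ?_, hs⟩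
        · intro r x; simp only [eval]; ring
        · simp only [L]; omega
        · rw [occ, occ, occ]
          exact union_subset_union_left (empty_subset _)
        · rw [occ]; exact subset_union_left
        · rw [occ]; exact empty_subset _
        · rw [occ, empty_inter]
        · simp only [shr, card_empty]; omega
        · simp only [shr]; omega
        · omega
      · obtain ⟨F₀, u, S, M, h1, h2, h3, h4, h5, h6, h7, h8, h9, h10⟩ := ihF (by omega)
        refine ⟨add F₀ G, u, S, M, ?_, ?_, ?_, ?_, ?_, h6, ?_, ?_, h9, h10⟩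
        · intro r x; simp only [eval, h1 r x]; ring
        · simp only [L]; omega
        · rw [occ, occ]; exact union_subset_union_left h3
        · rw [occ]; exact h4.trans subset_union_left
        · rw [occ]; exact h5.trans subset_union_left
        · simp only [shr]; omega
        · simp only [shr]; omega
    · by_cases hs : 3 * (occ G).card ≤ 2 * N
      · refine ⟨add zer F, G, side (fun _ => 1), ∅, ?_, ?_, ?_, ?_, ?_, ?_, ?_, ?_, ?_, hs⟩
        · intro r x; simp only [eval]; ring
        · simp only [L]; omega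
        · rw [occ, occ, occ, empty_union]
          exact subset_union_left
        · rw [occ]; exact subset_union_right
        · rw [occ]; exact empty_subset _
        · rw [occ, empty_inter]
        · simp only [shr, card_empty]; omega
        · simp only [shr]; omega
        · omega
      · obtain ⟨F₀, u, S, M, h1, h2, h3, h4, h5, h6, h7, h8, h9, h10⟩ := ihG (by omega)
        refine ⟨add F₀ F, u, S, M, ?_, ?_, ?_, ?_, ?_, h6, ?_, ?_, h9, h10⟩
        · intro r x; simp only [eval, h1 r x]; ring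
        · simp only [L]; omega
        · rw [occ, occ, union_comm (occ F) (occ G)]
          exact union_subset_union_left h3
        · rw [occ]; exact h4.trans subset_union_right
        · rw [occ]; exact h5.trans subset_union_right
        · simp only [shr]; omega
        · simp only [shr]; omega
  | mul F G ihF ihG =>
    rw [occ] at hF
    have hcard := card_union_le (occ F) (occ G)
    rcases le_total (occ G).card (occ F).card with hle | hle
    · by_cases hs : 3 * (occ F).card ≤ 2 * N
      · refine ⟨zer, F, G, occ F ∩ occ G, ?_, ?_, ?_, ?_, ?_, ?_, ?_, ?_, ?_, hs⟩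
        · intro r x; simp only [eval]; ring
        · simp only [L]; omega
        · rw [occ]; exact empty_subset _
        · rw [occ]; exact subset_union_left
        · rw [occ]; exact subset_union_right
        · rw [inter_comm]
        · simp only [shr]; omega
        · simp only [shr]; omega
        · omega
      · obtain ⟨F₀, u, S, M, h1, h2, h3, h4, h5, h6, h7, h8, h9, h10⟩ := ihF (by omega)
        refine ⟨mul F₀ G, u, mul S G, M ∪ (occ F ∩ occ G), ?_, ?_, ?_, ?_, ?_, ?_, ?_,
          ?_, h9, h10⟩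
        · intro r x; simp only [eval, h1 r x]; ring
        · simp only [L]; omega
        · rw [occ, occ]; exact union_subset_union_left h3
        · rw [occ]; exact h4.trans subset_union_left
        · rw [occ, occ]; exact union_subset_union_left h5
        · rw [occ, union_inter_distrib_right]
          refine union_subset_union h6 ?_
          rw [inter_comm (occ G)]
          exact inter_subset_inter_right h4
        · have := card_union_le M (occ F ∩ occ G)
          simp only [shr]; omega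
        · have : (occ F₀ ∩ occ G).card ≤ (occ F ∩ occ G).card :=
            card_le_card (inter_subset_inter_right h3)
          simp only [shr]; omega
    · by_cases hs : 3 * (occ G).card ≤ 2 * N
      · refine ⟨zer, G, F, occ F ∩ occ G, ?_, ?_, ?_, ?_, ?_, ?_, ?_, ?_, ?_, hs⟩
        · intro r x; simp only [eval]; ring
        · simp only [L]; omega
        · rw [occ]; exact empty_subset _
        · rw [occ]; exact subset_union_right
        · rw [occ]; exact subset_union_left
        · exact Subset.rfl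
        · simp only [shr]; omega
        · simp only [shr]; omega
        · omega
      · obtain ⟨F₀, u, S, M, h1, h2, h3, h4, h5, h6, h7, h8, h9, h10⟩ := ihG (by omega)
        refine ⟨mul F₀ F, u, mul S F, M ∪ (occ F ∩ occ G), ?_, ?_, ?_, ?_, ?_, ?_, ?_,
          ?_, h9, h10⟩
        · intro r x; simp only [eval, h1 r x]; ring
        · simp only [L]; omega
        · rw [occ, occ, union_comm (occ F) (occ G)]
          exact union_subset_union_left h3
        · rw [occ]; exact h4.trans subset_union_right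
        · rw [occ, occ, union_comm (occ F) (occ G)]
          exact union_subset_union_left h5
        · rw [occ, union_inter_distrib_right]
          refine union_subset_union h6 ?_
          exact inter_subset_inter_left h4
        · have := card_union_le M (occ F ∩ occ G)
          simp only [shr]; omega
        · have : (occ F₀ ∩ occ F).card ≤ (occ F ∩ occ G).card := by
            rw [inter_comm (occ F) (occ G)]
            exact card_le_card (inter_subset_inter_right h3)
          simp only [shr]; omega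

end AF

/-! ## Ranks -/

section RK

variable {V K : Type} [Field K] [DecidableEq V] [Fintype V]

/-- `P` is a sum of at most `N` products of a function of the coordinates in `Y` and a function of
the coordinates in `Z`. -/
def RK (P : (V → Bool) → K) (Y Z : Finset V) (N : ℕ) : Prop :=
  ∃ (ι : Type) (_ : Fintype ι) (A B : ι → (V → Bool) → K), Fintype.card ι ≤ N ∧
    (∀ k, Dep Y (A k)) ∧ (∀ k, Dep Z (B k)) ∧ ∀ x, P x = ∑ k, A k x * B k x

theorem RK.mono {P : (V → Bool) → K} {Y Z Y' Z' : Finset V} {N N' : ℕ} (h : RK P Y Z N)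
    (hY : Y ⊆ Y') (hZ : Z ⊆ Z') (hN : N ≤ N') : RK P Y' Z' N' := by
  obtain ⟨ι, _, A, B, hc, hA, hB, hP⟩ := h
  exact ⟨ι, inferInstance, A, B, hc.trans hN, fun k => (hA k).mono hY, fun k => (hB k).mono hZ, hP⟩

theorem RK.symm {P : (V → Bool) → K} {Y Z : Finset V} {N : ℕ} (h : RK P Y Z N) :
    RK P Z Y N := by
  obtain ⟨ι, _, A, B, hc, hA, hB, hP⟩ := h
  exact ⟨ι, inferInstance, B, A, hc, hB, hA, fun x => by
    rw [hP]; exact sum_congr rfl fun k _ => mul_comm _ _⟩

theorem RK.mul {P Q : (V → Bool) → K} {Y Z : Finset V} {N M : ℕ} (h : RK P Y Z N)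
    (h' : RK Q Y Z M) : RK (fun x => P x * Q x) Y Z (N * M) := by
  obtain ⟨ι, _, A, B, hc, hA, hB, hP⟩ := h
  obtain ⟨κ, _, A', B', hc', hA', hB', hP'⟩ := h'
  refine ⟨ι × κ, inferInstance, fun k x => A k.1 x * A' k.2 x, fun k x => B k.1 x * B' k.2 x,
    ?_, ?_, ?_, ?_⟩
  · rw [Fintype.card_prod]; exact Nat.mul_le_mul hc hc'
  · intro k x x' hx
    simp only
    rw [hA k.1 x x' hx, hA' k.2 x x' hx]
  · intro k x x' hx
    simp only
    rw [hB k.1 x x' hx, hB' k.2 x x' hx]
  · intro x
    simp only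
    rw [hP, hP', Finset.sum_mul_sum, Fintype.sum_prod_type]
    exact sum_congr rfl fun k _ => sum_congr rfl fun l _ => by ring

theorem RK.add {P Q : (V → Bool) → K} {Y Z : Finset V} {N M : ℕ} (h : RK P Y Z N)
    (h' : RK Q Y Z M) : RK (fun x => P x + Q x) Y Z (N + M) := by
  obtain ⟨ι, _, A, B, hc, hA, hB, hP⟩ := h
  obtain ⟨κ, _, A', B', hc', hA', hB', hP'⟩ := h'
  refine ⟨ι ⊕ κ, inferInstance, Sum.elim A A', Sum.elim B B', ?_, ?_, ?_, ?_⟩
  · rw [Fintype.card_sum]; exact Nat.add_le_add hc hc'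
  · rintro (k | k)
    · exact hA k
    · exact hA' k
  · rintro (k | k)
    · exact hB k
    · exact hB' k
  · intro x
    simp only [Fintype.sum_sum_type, hP, hP', Sum.elim_inl, Sum.elim_inr]

theorem RK.of_zero {P : (V → Bool) → K} (Y Z : Finset V) (h : ∀ x, P x = 0) : RK P Y Z 0 :=
  ⟨Empty, inferInstance, fun k => k.elim, fun k => k.elim, by simp, fun k => k.elim,
    fun k => k.elim, fun x => by simp [h x]⟩

theorem RK.congr {P Q : (V → Bool) → K} {Y Z : Finset V} {N : ℕ} (h : RK P Y Z N)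
    (hPQ : ∀ x, P x = Q x) : RK Q Y Z N := by
  obtain ⟨ι, _, A, B, hc, hA, hB, hP⟩ := h
  exact ⟨ι, inferInstance, A, B, hc, hA, hB, fun x => (hPQ x).symm.trans (hP x)⟩

/-- The trivial bound. -/
theorem RK.triv {P : (V → Bool) → K} {U : Finset V} (Y Z : Finset V)
    (hP : Dep U P) (hU : U \ Y ⊆ Z) : RK P Y Z (2 ^ (U ∩ Y).card) := by
  classical
  refine ⟨(↥(U ∩ Y) → Bool), inferInstance,
    fun a x => if (fun i : ↥(U ∩ Y) => x i) = a then 1 else 0,
    fun a x => P fun i => if h : i ∈ U ∩ Y then a ⟨i, h⟩ else x i, ?_, ?_, ?_, ?_⟩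
  · rw [Fintype.card_fun, Fintype.card_bool, Fintype.card_coe]
  · intro a x x' hx
    have : (fun i : ↥(U ∩ Y) => x i) = fun i : ↥(U ∩ Y) => x' i :=
      funext fun i => hx i (mem_inter.1 i.2).2
    simp only
    rw [this]
  · intro a x x' hx
    refine hP _ _ ?_
    intro i hi
    by_cases hY : i ∈ U ∩ Y
    · simp [hY]
    · simp only [hY, dite_false]
      exact hx i (hU (mem_sdiff.2 ⟨hi, fun h' => hY (mem_inter.2 ⟨hi, h'⟩)⟩))
  · intro x
    rw [Finset.sum_eq_single (fun i : ↥(U ∩ Y) => x i)]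
    · simp only [if_true, one_mul]
      refine hP _ _ ?_
      intro i _
      by_cases hY : i ∈ U ∩ Y <;> simp [hY]
    · intro a _ ha
      have hne : ¬ (fun i : ↥(U ∩ Y) => x i) = a := fun h => ha h.symm
      simp only [hne, if_false, zero_mul]
    · intro h
      exact absurd (mem_univ _) h

end RK

/-! ## Covers and counting -/

variable {V R K : Type} [Field K] [DecidableEq V] [Fintype V]

theorem rk_left (F : AF V R K) (r : R) (D W Y : Finset V) (hF : AF.occ F ⊆ D) (hD : D ⊆ W) :
    RK (fun x => AF.eval r x F) Y (W \ Y) (2 ^ (D ∩ Y).card) := by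
  apply RK.triv
  · exact (AF.dep F r).mono hF
  · intro i hi
    rw [mem_sdiff] at hi ⊢
    exact ⟨hD hi.1, hi.2⟩

theorem rk_right (F : AF V R K) (r : R) (D W Y : Finset V) (hF : AF.occ F ⊆ D) (hD : D ⊆ W) :
    RK (fun x => AF.eval r x F) Y (W \ Y) (2 ^ (D \ Y).card) := by
  apply RK.symm
  have h : D ∩ (W \ Y) = D \ Y := by
    ext i
    simp only [mem_inter, mem_sdiff]
    constructor
    · rintro ⟨h1, h2, h3⟩; exact ⟨h1, h3⟩
    · rintro ⟨h1, h2⟩; exact ⟨h1, hD h1, h2⟩
  rw [← h]
  apply RK.triv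
  · exact (AF.dep F r).mono hF
  · intro i hi
    rw [mem_sdiff, mem_sdiff] at hi
    by_contra hY
    exact hi.2 ⟨hD hi.1, hY⟩

theorem rk_half' (F : AF V R K) (r : R) (D M W Y : Finset V) (hF : AF.occ F ⊆ D ∪ M) (hD : D ⊆ W)
    (hM : M ⊆ W) :
    ∃ N : ℕ, (N : ℝ) ≤ 2 ^ M.card * Dec.sq D.card ∧
      RK (fun x => AF.eval r x F) Y (W \ Y) N := by
  have h0 := inter_sdiff_card D Y
  rcases le_total (D ∩ Y).card (D \ Y).card with h | h
  · refine ⟨_, ?_, rk_left F r (D ∪ M) W Y hF (union_subset hD hM)⟩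
    have h1 : ((D ∪ M) ∩ Y).card ≤ M.card + (D ∩ Y).card := by
      rw [union_inter_distrib_right]
      refine (card_union_le _ _).trans ?_
      have : (M ∩ Y).card ≤ M.card := card_le_card inter_subset_left
      omega
    push_cast
    calc (2 : ℝ) ^ ((D ∪ M) ∩ Y).card ≤ 2 ^ (M.card + (D ∩ Y).card) :=
          pow_le_pow_right₀ (by norm_num) h1
      _ = 2 ^ M.card * 2 ^ (D ∩ Y).card := pow_add _ _ _
      _ ≤ _ := mul_le_mul_of_nonneg_left (pow_le_sq (by omega)) (by positivity)
  · refine ⟨_, ?_, rk_right F r (D ∪ M) W Y hF (union_subset hD hM)⟩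
    have h1 : ((D ∪ M) \ Y).card ≤ M.card + (D \ Y).card := by
      rw [union_sdiff_distrib]
      refine (card_union_le _ _).trans ?_
      have : (M \ Y).card ≤ M.card := card_le_card sdiff_subset
      omega
    push_cast
    calc (2 : ℝ) ^ ((D ∪ M) \ Y).card ≤ 2 ^ (M.card + (D \ Y).card) :=
          pow_le_pow_right₀ (by norm_num) h1
      _ = 2 ^ M.card * 2 ^ (D \ Y).card := pow_add _ _ _
      _ ≤ _ := mul_le_mul_of_nonneg_left (pow_le_sq (by omega)) (by positivity)

theorem rk_half (F : AF V R K) (r : R) (D W Y : Finset V) (hF : AF.occ F ⊆ D) (hD : D ⊆ W) :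
    ∃ N : ℕ, (N : ℝ) ≤ Dec.sq D.card ∧ RK (fun x => AF.eval r x F) Y (W \ Y) N := by
  obtain ⟨N, h1, h2⟩ := rk_half' F r D ∅ W Y (by rw [union_empty]; exact hF) hD (empty_subset _)
  exact ⟨N, by simpa using h1, h2⟩

theorem rk_unbal' (τ : ℕ) (F : AF V R K) (r : R) (D M W Y : Finset V) (hF : AF.occ F ⊆ D ∪ M)
    (hD : D ⊆ W) (hM : M ⊆ W) (hNB : D ∩ Y ∉ NB τ D) :
    ∃ N : ℕ, (N : ℝ) * 2 ^ τ ≤ 2 ^ M.card * Dec.sq D.card ∧
      RK (fun x => AF.eval r x F) Y (W \ Y) N := by
  have h0 := inter_sdiff_card D Y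
  have h : D.card + 2 * τ ≤ 2 * (D ∩ Y).card ∨ 2 * (D ∩ Y).card + 2 * τ ≤ D.card := by
    by_contra hc
    apply hNB
    rw [NB, mem_filter, mem_powerset]
    exact ⟨inter_subset_left, by omega, by omega⟩
  rcases h with h | h
  · refine ⟨_, ?_, rk_right F r (D ∪ M) W Y hF (union_subset hD hM)⟩
    have h1 : ((D ∪ M) \ Y).card ≤ M.card + (D \ Y).card := by
      rw [union_sdiff_distrib]
      refine (card_union_le _ _).trans ?_
      have : (M \ Y).card ≤ M.card := card_le_card sdiff_subset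
      omega
    push_cast
    calc (2 : ℝ) ^ ((D ∪ M) \ Y).card * 2 ^ τ ≤ 2 ^ (M.card + (D \ Y).card) * 2 ^ τ :=
          mul_le_mul_of_nonneg_right (pow_le_pow_right₀ (by norm_num) h1) (by positivity)
      _ = 2 ^ M.card * 2 ^ ((D \ Y).card + τ) := by rw [pow_add, pow_add]; ring
      _ ≤ _ := mul_le_mul_of_nonneg_left (pow_le_sq (by omega)) (by positivity)
  · refine ⟨_, ?_, rk_left F r (D ∪ M) W Y hF (union_subset hD hM)⟩
    have h1 : ((D ∪ M) ∩ Y).card ≤ M.card + (D ∩ Y).card := by
      rw [union_inter_distrib_right]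
      refine (card_union_le _ _).trans ?_
      have : (M ∩ Y).card ≤ M.card := card_le_card inter_subset_left
      omega
    push_cast
    calc (2 : ℝ) ^ ((D ∪ M) ∩ Y).card * 2 ^ τ ≤ 2 ^ (M.card + (D ∩ Y).card) * 2 ^ τ :=
          mul_le_mul_of_nonneg_right (pow_le_pow_right₀ (by norm_num) h1) (by positivity)
      _ = 2 ^ M.card * 2 ^ ((D ∩ Y).card + τ) := by rw [pow_add, pow_add]; ring
      _ ≤ _ := mul_le_mul_of_nonneg_left (pow_le_sq (by omega)) (by positivity)

/-- The rank for the split `Y`, `W \ Y` is small. -/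
def Cov (τ : ℕ) (F : AF V R K) (W Y : Finset V) : Prop :=
  ∀ r : R, ∃ N : ℕ, (N : ℝ) * 2 ^ τ ≤ (AF.L F : ℝ) * 2 ^ AF.shr F * Dec.sq W.card ∧
    RK (fun x => AF.eval r x F) Y (W \ Y) N

open Classical in
/-- The bad sets. -/
noncomputable def Bad (τ : ℕ) (F : AF V R K) (W : Finset V) : Finset (Finset V) :=
  W.powerset.filter fun Y => ¬ Cov τ F W Y

theorem mem_Bad {τ : ℕ} {F : AF V R K} {W Y : Finset V} :
    Y ∈ Bad τ F W ↔ Y ⊆ W ∧ ¬ Cov τ F W Y := by
  classical
  rw [Bad, mem_filter, mem_powerset]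

theorem bad_empty {τ : ℕ} {F : AF V R K} {W : Finset V} (h : ∀ Y ⊆ W, Cov τ F W Y) :
    Bad τ F W = ∅ := by
  rw [eq_empty_iff_forall_notMem]
  intro Y hY
  rw [mem_Bad] at hY
  exact hY.2 (h Y hY.1)

theorem bad_le {τ : ℕ} {F : AF V R K} {W : Finset V} : (Bad τ F W).card ≤ 2 ^ W.card := by
  rw [← card_powerset]
  apply card_le_card
  intro Y hY
  exact mem_powerset.2 (mem_Bad.1 hY).1

theorem cov_of_L_zero (τ : ℕ) (F : AF V R K) (W Y : Finset V) (h : AF.L F = 0) :
    Cov τ F W Y := by
  intro r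
  refine ⟨0, ?_, RK.of_zero _ _ fun x => ?_⟩
  · simp [h]
  · exact AF.eval_of_L_zero F h r x

theorem one_le_two_pow (n : ℕ) : (1 : ℝ) ≤ 2 ^ n := one_le_pow₀ (by norm_num)

theorem cov_of_small (τ : ℕ) (F : AF V R K) (W Y : Finset V) (hF : AF.occ F ⊆ W)
    (h : (AF.occ F).card + 2 * τ ≤ W.card) : Cov τ F W Y := by
  by_cases h0 : AF.L F = 0
  · exact cov_of_L_zero τ F W Y h0
  intro r
  obtain ⟨N, hN, hRC⟩ := rk_half F r (AF.occ F) W Y Subset.rfl hF
  refine ⟨N, ?_, hRC⟩
  have h1 : (1 : ℝ) ≤ AF.L F := by exact_mod_cast Nat.one_le_iff_ne_zero.2 h0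
  have h2 : (1 : ℝ) ≤ (AF.L F : ℝ) * 2 ^ AF.shr F := one_le_mul_of_one_le_of_one_le h1
    (one_le_two_pow _)
  calc (N : ℝ) * 2 ^ τ ≤ Dec.sq (AF.occ F).card * Dec.sq (2 * τ) := by
        rw [sq_two_mul]
        exact mul_le_mul_of_nonneg_right hN (by positivity)
    _ = Dec.sq ((AF.occ F).card + 2 * τ) := (sq_add _ _).symm
    _ ≤ Dec.sq W.card := by
        unfold Dec.sq
        exact Real.sqrt_le_sqrt (pow_le_pow_right₀ (by norm_num) h)
    _ ≤ (AF.L F : ℝ) * 2 ^ AF.shr F * Dec.sq W.card := le_mul_of_one_le_left (sq_nonneg _) h2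

/-- The recurrence for covers. -/
theorem cov_step (τ : ℕ) (F F₀ u S : AF V R K) (M W Y : Finset V) (hW : AF.occ F ⊆ W)
    (hval : ∀ r x, AF.eval r x F = AF.eval r x F₀ + AF.eval r x u * AF.eval r x S)
    (hL : AF.L F₀ + AF.L u ≤ AF.L F) (hu : (AF.occ u).Nonempty)
    (huF : AF.occ u ⊆ AF.occ F) (hSF : AF.occ S ⊆ AF.occ F)
    (hM : AF.occ S ∩ AF.occ u ⊆ M) (hsh : M.card + AF.shr u ≤ AF.shr F)
    (hsh₀ : AF.shr F₀ ≤ AF.shr F) (h0 : Cov τ F₀ W Y)
    (h1 : (W \ AF.occ u) ∩ Y ∉ NB τ (W \ AF.occ u) ∨ Cov τ u (AF.occ u) (AF.occ u ∩ Y)) :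
    Cov τ F W Y := by
  intro r
  have huW : AF.occ u ⊆ W := huF.trans hW
  have hSW : AF.occ S ⊆ (W \ AF.occ u) ∪ (AF.occ S ∩ AF.occ u) := by
    intro i hi
    rw [mem_union, mem_sdiff, mem_inter]
    by_cases h : i ∈ AF.occ u
    · exact Or.inr ⟨hi, h⟩
    · exact Or.inl ⟨hW (hSF hi), h⟩
  have hM' : AF.occ S ∩ AF.occ u ⊆ W := inter_subset_right.trans huW
  have hMc : (AF.occ S ∩ AF.occ u).card ≤ M.card := card_le_card hM
  have hcard : (AF.occ u).card + (W \ AF.occ u).card = W.card := by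
    rw [card_sdiff_of_subset huW]
    have := card_le_card huW
    omega
  have hLu : (1 : ℝ) ≤ AF.L u := by exact_mod_cast AF.one_le_L_of_occ u hu
  obtain ⟨N₀, hN₀, hRC₀⟩ := h0 r
  have hp : ∀ {a b : ℕ}, a ≤ b → (2 : ℝ) ^ a ≤ 2 ^ b := fun h =>
    pow_le_pow_right₀ (by norm_num) h
  have key : ∃ N : ℕ, (N : ℝ) * 2 ^ τ ≤ (AF.L u : ℝ) * 2 ^ AF.shr F * Dec.sq W.card ∧
      RK (fun x => AF.eval r x u * AF.eval r x S) Y (W \ Y) N := by
    rcases h1 with h1 | h1
    · obtain ⟨N, hN, hRC⟩ := rk_unbal' τ S r (W \ AF.occ u) _ W Y hSW sdiff_subset hM' h1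
      obtain ⟨P, hP, hRC'⟩ := rk_half u r (AF.occ u) W Y Subset.rfl huW
      refine ⟨P * N, ?_, hRC'.mul hRC⟩
      push_cast
      calc (P : ℝ) * N * 2 ^ τ = P * (N * 2 ^ τ) := by ring
        _ ≤ Dec.sq (AF.occ u).card *
              (2 ^ (AF.occ S ∩ AF.occ u).card * Dec.sq (W \ AF.occ u).card) :=
            mul_le_mul hP hN (by positivity) (sq_nonneg _)
        _ = 2 ^ (AF.occ S ∩ AF.occ u).card * Dec.sq W.card := by rw [← hcard, sq_add]; ring
        _ ≤ 2 ^ AF.shr F * Dec.sq W.card :=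
            mul_le_mul_of_nonneg_right (hp (by omega)) (sq_nonneg _)
        _ ≤ (AF.L u : ℝ) * (2 ^ AF.shr F * Dec.sq W.card) :=
            le_mul_of_one_le_left (mul_nonneg (by positivity) (sq_nonneg _)) hLu
        _ = _ := by ring
    · obtain ⟨P, hP, hRC'⟩ := h1 r
      obtain ⟨N, hN, hRC⟩ := rk_half' S r (W \ AF.occ u) _ W Y hSW sdiff_subset hM'
      refine ⟨P * N, ?_, RK.mul (hRC'.mono inter_subset_right ?_ le_rfl) hRC⟩
      · push_cast
        calc (P : ℝ) * N * 2 ^ τ = (P * 2 ^ τ) * N := by ring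
          _ ≤ ((AF.L u : ℝ) * 2 ^ AF.shr u * Dec.sq (AF.occ u).card) *
                (2 ^ (AF.occ S ∩ AF.occ u).card * Dec.sq (W \ AF.occ u).card) :=
              mul_le_mul hP hN (by positivity) (mul_nonneg (by positivity) (sq_nonneg _))
          _ = (AF.L u : ℝ) * 2 ^ (AF.shr u + (AF.occ S ∩ AF.occ u).card) * Dec.sq W.card := by
              rw [← hcard, sq_add, pow_add]; ring
          _ ≤ (AF.L u : ℝ) * 2 ^ AF.shr F * Dec.sq W.card :=
              mul_le_mul_of_nonneg_right (mul_le_mul_of_nonneg_left (hp (by omega))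
                (by positivity)) (sq_nonneg _)
      · intro i hi
        rw [mem_sdiff, mem_inter] at hi
        rw [mem_sdiff]
        exact ⟨huW hi.1, fun hY => hi.2 ⟨hi.1, hY⟩⟩
  obtain ⟨N₁, hN₁, hRC₁⟩ := key
  refine ⟨N₀ + N₁, ?_, (hRC₀.add hRC₁).congr fun x => (hval r x).symm⟩
  push_cast
  have hL' : (AF.L F₀ : ℝ) + AF.L u ≤ AF.L F := by exact_mod_cast hL
  calc ((N₀ : ℝ) + N₁) * 2 ^ τ = N₀ * 2 ^ τ + N₁ * 2 ^ τ := by ring
    _ ≤ (AF.L F₀ : ℝ) * 2 ^ AF.shr F₀ * Dec.sq W.card +
          (AF.L u : ℝ) * 2 ^ AF.shr F * Dec.sq W.card := add_le_add hN₀ hN₁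
    _ ≤ (AF.L F₀ : ℝ) * 2 ^ AF.shr F * Dec.sq W.card +
          (AF.L u : ℝ) * 2 ^ AF.shr F * Dec.sq W.card :=
        add_le_add (mul_le_mul_of_nonneg_right (mul_le_mul_of_nonneg_left (hp hsh₀)
          (by positivity)) (sq_nonneg _)) le_rfl
    _ = ((AF.L F₀ : ℝ) + AF.L u) * (2 ^ AF.shr F * Dec.sq W.card) := by ring
    _ ≤ (AF.L F : ℝ) * (2 ^ AF.shr F * Dec.sq W.card) :=
        mul_le_mul_of_nonneg_right hL' (mul_nonneg (by positivity) (sq_nonneg _))
    _ = _ := by ring

/-- **Counting.** -/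
theorem bad_card (τ t q : ℕ) (hτ : 2 * τ ≤ t) (ht : 1 ≤ t)
    (hNB : ∀ D : Finset V, t ≤ D.card → (NB τ D).card * q ≤ 2 ^ D.card) :
    ∀ (lev : ℕ) (l : ℕ) (F : AF V R K), AF.L F = l →
      ∀ W : Finset V, AF.occ F ⊆ W → 3 ^ lev * t ≤ W.card →
      (Bad τ F W).card * q ^ lev ≤ AF.L F * 2 ^ W.card := by
  intro lev
  induction lev with
  | zero =>
    intro l F _ W _ _
    by_cases h0 : AF.L F = 0
    · have : Bad τ F W = ∅ := bad_empty fun Y _ => cov_of_L_zero τ F W Y h0
      simp [this]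
    · have h1 : (Bad τ F W).card ≤ 2 ^ W.card := bad_le
      rw [pow_zero, mul_one]
      exact h1.trans (Nat.le_mul_of_pos_left _ (Nat.pos_of_ne_zero h0))
  | succ lev ih =>
    intro l
    induction l using Nat.strong_induction_on with
    | _ l ihl =>
      intro F hFl W hW hcard
      have h3 : 3 ^ lev * t ≥ t := Nat.le_mul_of_pos_left _ (by positivity)
      have hcard' : 3 * (3 ^ lev * t) ≤ W.card := by
        rw [← mul_assoc, mul_comm 3, ← pow_succ]; exact hcard
      by_cases hsm : 3 * (AF.occ F).card ≤ 2 * W.card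
      · have : Bad τ F W = ∅ := bad_empty fun Y _ => cov_of_small τ F W Y hW (by omega)
        simp [this]
      · obtain ⟨F₀, u, S, M, h1, h2, h3', h4, h4', h4M, h4s, h4s', h5, h6⟩ :=
          AF.split W.card (by omega) F (by omega)
        have hu : (AF.occ u).Nonempty := by
          rw [← card_pos]; omega
        have hLu := AF.one_le_L_of_occ u hu
        have huW : AF.occ u ⊆ W := h4.trans hW
        have hcd : (W \ AF.occ u).card = W.card - (AF.occ u).card := card_sdiff_of_subset huW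
        have hF₀W : AF.occ F₀ ⊆ W := h3'.trans hW
        have hb₀ := ihl (AF.L F₀) (by omega) F₀ rfl W hF₀W hcard
        have hbu := ih (AF.L u) u rfl (AF.occ u) Subset.rfl (by omega)
        have hnb := hNB (W \ AF.occ u) (by omega)
        -- the inclusion
        have hincl : (Bad τ F W).card ≤ (Bad τ F₀ W).card +
            (NB τ (W \ AF.occ u)).card * (Bad τ u (AF.occ u)).card := by
          have hsub : Bad τ F W ⊆ Bad τ F₀ W ∪
              ((Bad τ F W).filter fun Y => (W \ AF.occ u) ∩ Y ∈ NB τ (W \ AF.occ u) ∧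
                AF.occ u ∩ Y ∈ Bad τ u (AF.occ u)) := by
            intro Y hY
            have hY' := hY
            rw [mem_Bad] at hY'
            rw [mem_union, mem_filter]
            by_cases h0 : Cov τ F₀ W Y
            · right
              refine ⟨hY, ?_, ?_⟩
              · by_contra hc
                exact hY'.2 (cov_step τ F F₀ u S M W Y hW h1 h2 hu h4 h4' h4M h4s h4s' h0
                  (Or.inl hc))
              · rw [mem_Bad]
                refine ⟨inter_subset_left, fun hc => ?_⟩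
                exact hY'.2 (cov_step τ F F₀ u S M W Y hW h1 h2 hu h4 h4' h4M h4s h4s' h0
                  (Or.inr hc))
            · left
              rw [mem_Bad]
              exact ⟨hY'.1, h0⟩
          refine (card_le_card hsub).trans ((card_union_le _ _).trans ?_)
          apply Nat.add_le_add_left
          rw [← card_product]
          apply card_le_card_of_injOn (fun Y => ((W \ AF.occ u) ∩ Y, AF.occ u ∩ Y))
          · intro Y hY
            rw [mem_coe, mem_filter] at hY
            rw [mem_coe, mem_product]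
            exact hY.2
          · intro Y hY Y' hY' he
            rw [mem_coe, mem_filter, mem_Bad] at hY hY'
            rw [Prod.mk.injEq] at he
            ext i
            by_cases hiu : i ∈ AF.occ u
            · have := congrArg (fun T => i ∈ T) he.2
              simp only [mem_inter, hiu, true_and] at this
              rw [this]
            · by_cases hiW : i ∈ W
              · have := congrArg (fun T => i ∈ T) he.1
                simp only [mem_inter, mem_sdiff, hiu, hiW, not_false_eq_true, true_and] at this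
                rw [this]
              · constructor
                · intro h; exact absurd (hY.1.1 h) hiW
                · intro h; exact absurd (hY'.1.1 h) hiW
        calc (Bad τ F W).card * q ^ (lev + 1)
            ≤ ((Bad τ F₀ W).card +
                (NB τ (W \ AF.occ u)).card * (Bad τ u (AF.occ u)).card) * q ^ (lev + 1) :=
              Nat.mul_le_mul_right _ hincl
          _ = (Bad τ F₀ W).card * q ^ (lev + 1) +
                ((NB τ (W \ AF.occ u)).card * q) *
                  ((Bad τ u (AF.occ u)).card * q ^ lev) := by ring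
          _ ≤ AF.L F₀ * 2 ^ W.card +
                2 ^ (W \ AF.occ u).card * (AF.L u * 2 ^ (AF.occ u).card) :=
              Nat.add_le_add hb₀ (Nat.mul_le_mul hnb hbu)
          _ = (AF.L F₀ + AF.L u) * 2 ^ W.card := by
              have : 2 ^ W.card = 2 ^ (W \ AF.occ u).card * 2 ^ (AF.occ u).card := by
                rw [← pow_add]; congr 1
                have := card_le_card huW
                omega
              rw [this]; ring
          _ ≤ AF.L F * 2 ^ W.card := Nat.mul_le_mul_right _ h2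

theorem exists_good (τ t q lev k : ℕ) (hV : Fintype.card V = 2 * k) (hk : 0 < k)
    (hτ : 2 * τ ≤ t) (ht : 1 ≤ t)
    (hNB : ∀ D : Finset V, t ≤ D.card → (NB τ D).card * q ≤ 2 ^ D.card)
    (hlev : 3 ^ lev * t ≤ 2 * k) (F : AF V R K)
    (hL : AF.L F * (2 * k) < q ^ lev) :
    ∃ Y : Finset V, Y.card = k ∧ ∀ r : R, ∃ N : ℕ,
      (N : ℝ) * 2 ^ τ ≤ AF.L F * 2 ^ AF.shr F * 2 ^ k ∧
      RkLe Y N (fun x => AF.eval r x F) := by
  classical
  have hbad := bad_card τ t q hτ ht hNB lev _ F rfl univ (subset_univ _)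
    (by rw [card_univ, hV]; exact hlev)
  rw [card_univ, hV] at hbad
  by_contra hcon
  have hall : powersetCard k (univ : Finset V) ⊆ Bad τ F univ := by
    intro Y hY
    rw [mem_powersetCard] at hY
    rw [mem_Bad]
    refine ⟨hY.1, fun hc => hcon ⟨Y, hY.2, fun r => ?_⟩⟩
    obtain ⟨N, hN, hRC⟩ := hc r
    rw [card_univ, hV, sq_two_mul] at hN
    exact ⟨N, hN, hRC⟩
  have hc := card_le_card hall
  rw [card_powersetCard, card_univ, hV] at hc
  have hcb := Nat.four_pow_le_two_mul_self_mul_centralBinom k hk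
  rw [Nat.centralBinom_eq_two_mul_choose] at hcb
  have h4 : 2 ^ (2 * k) = 4 ^ k := by rw [pow_mul]; norm_num
  rw [h4] at hbad
  have hq : 4 ^ k * q ^ lev ≤ 4 ^ k * (AF.L F * (2 * k)) := by
    calc 4 ^ k * q ^ lev ≤ (2 * k * (2 * k).choose k) * q ^ lev := Nat.mul_le_mul_right _ hcb
      _ ≤ (2 * k * (Bad τ F univ).card) * q ^ lev :=
          Nat.mul_le_mul_right _ (Nat.mul_le_mul_left _ hc)
      _ = 2 * k * ((Bad τ F univ).card * q ^ lev) := by ring
      _ ≤ 2 * k * (AF.L F * 4 ^ k) := Nat.mul_le_mul_left _ hbad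
      _ = 4 ^ k * (AF.L F * (2 * k)) := by ring
  have := Nat.le_of_mul_le_mul_left hq (by positivity)
  omega

/-- **The lower bound for tracked formulas.** -/
theorem tracked_lower {R : Type} (h i j : ℕ) (hij : i + j + 1 ≤ h)
    (hV : Fintype.card V = 2 ^ (2 * h))
    (F : AF V R K) (d m : ℕ) (hL : AF.L F ≤ 2 ^ d) (hm : AF.shr F ≤ m)
    (hf : ∀ Y : Finset V, 2 * Y.card = 2 ^ (2 * h) → ∃ ρ : R,
      ∀ N, RkLe Y N (fun x => AF.eval ρ x F) → 2 ^ Y.card ≤ N) :
    i * j ≤ d + 2 * h ∨ 2 ^ (h - i - j - 1) ≤ d + m := by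
  by_contra hcon
  rw [not_or] at hcon
  obtain ⟨hc1, hc2⟩ := hcon
  push Not at hc1 hc2
  obtain ⟨a, ha⟩ : ∃ a, a = h - i - j - 1 := ⟨_, rfl⟩
  rw [← ha] at hc2
  have hh : 2 * h = (2 * h - 1) + 1 := by omega
  have hcard : Fintype.card V = 2 * 2 ^ (2 * h - 1) := by
    rw [hV, ← pow_succ', ← hh]
  have hLq : AF.L F * (2 * 2 ^ (2 * h - 1)) < (2 ^ i) ^ j := by
    calc AF.L F * (2 * 2 ^ (2 * h - 1)) ≤ 2 ^ d * (2 * 2 ^ (2 * h - 1)) :=
          Nat.mul_le_mul_right _ hL
      _ = 2 ^ (d + 2 * h) := by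
          rw [← pow_succ', ← pow_add, ← hh]
      _ < 2 ^ (i * j) := Nat.pow_lt_pow_right (by norm_num) hc1
      _ = (2 ^ i) ^ j := by rw [← pow_mul]
  have ht : (2 * 2 ^ a * 2 ^ i) ^ 2 = 2 ^ (2 * (a + i + 1)) := by
    rw [← pow_succ', ← pow_add, ← pow_mul]; congr 1; ring
  have hlev : 3 ^ j * (2 * 2 ^ a * 2 ^ i) ^ 2 ≤ 2 * 2 ^ (2 * h - 1) := by
    rw [ht]
    calc 3 ^ j * 2 ^ (2 * (a + i + 1)) ≤ 4 ^ j * 2 ^ (2 * (a + i + 1)) :=
          Nat.mul_le_mul_right _ (Nat.pow_le_pow_left (by norm_num) j)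
      _ = 2 ^ (2 * j + 2 * (a + i + 1)) := by
          rw [show (4 : ℕ) = 2 ^ 2 by norm_num, ← pow_mul, ← pow_add]
      _ = 2 ^ ((2 * h - 1) + 1) := by congr 1; omega
      _ = 2 * 2 ^ (2 * h - 1) := pow_succ' _ _
  obtain ⟨Y, hY, hcov⟩ := exists_good (2 ^ a) ((2 * 2 ^ a * 2 ^ i) ^ 2) (2 ^ i) j
    (2 ^ (2 * h - 1)) hcard (by positivity) (by
      rw [ht, ← pow_succ']
      exact Nat.pow_le_pow_right (by norm_num) (by omega)) (Nat.one_le_pow _ _ (by positivity))
      (fun D hD => Pool.Agent.TH708.Dsh.nb_card' _ _ D hD) hlev F hLq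
  obtain ⟨ρ, hfull⟩ := hf Y (by rw [hY, ← pow_succ', ← hh])
  obtain ⟨N, hN, hRC⟩ := hcov ρ
  have hfool := hfull N hRC
  rw [hY] at hfool
  have h1 : (2 : ℝ) ^ (2 ^ (2 * h - 1)) ≤ N := by exact_mod_cast hfool
  have h2 : (2 : ℝ) ^ (2 ^ (2 * h - 1)) * 2 ^ (2 ^ a) ≤
      AF.L F * 2 ^ AF.shr F * 2 ^ (2 ^ (2 * h - 1)) :=
    (mul_le_mul_of_nonneg_right h1 (by positivity)).trans hN
  have h3 : (2 : ℝ) ^ (2 ^ a) ≤ AF.L F * 2 ^ AF.shr F := by
    rw [mul_comm] at h2
    exact le_of_mul_le_mul_right h2 (by positivity)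
  have h4 : (2 : ℕ) ^ (2 ^ a) ≤ 2 ^ (d + m) := by
    have h5 : (2 : ℕ) ^ (2 ^ a) ≤ AF.L F * 2 ^ AF.shr F := by exact_mod_cast h3
    calc (2 : ℕ) ^ (2 ^ a) ≤ AF.L F * 2 ^ AF.shr F := h5
      _ ≤ 2 ^ d * 2 ^ m := Nat.mul_le_mul hL (Nat.pow_le_pow_right (by norm_num) hm)
      _ = 2 ^ (d + m) := (pow_add _ _ _).symm
  have h5 := (Nat.pow_le_pow_iff_right (by norm_num : 1 < 2)).1 h4
  omega

end Pool.Agent.TH708.Ash
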