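import Pool.Agent.TH708.Ash.Lower

set_option linter.unusedSectionVars false
set_option autoImplicit false

/-!
# Arithmetic formulas: number of leaves against shared variables along paths
-/

namespace Pool.Agent.TH708.Ash

open Finset
open Pool.Agent.TH708.Ari

variable {K I : Type} [Field K] [DecidableEq I] {n : ℕ}

/-- The number of leaves of a formula. -/
def leaves : Ex K I → ℕ
  | Ex.var _ => 1
  | Ex.const _ => 1
  | Ex.add F G => leaves F + leaves G
  | Ex.mul F G => leaves F + leaves G

/-- The indices in `W` whose variables `v i` are read in both formulas. -/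
def both (v : Fin n → I) (W : Finset (Fin n)) (F G : Ex K I) : Finset (Fin n) :=
  W.filter fun i => 1 ≤ F.deg (v i) ∧ 1 ≤ G.deg (v i)

/-- The largest sum, over a path from the root to a leaf, of the numbers of variables `v i`, `i ∈ W`,
which both factors of a product gate read. -/
def sharing (v : Fin n → I) (W : Finset (Fin n)) : Ex K I → ℕ
  | Ex.var _ => 0
  | Ex.const _ => 0
  | Ex.add F G => max (sharing v W F) (sharing v W G)
  | Ex.mul F G => (both v W F G).card + max (sharing v W F) (sharing v W G)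

theorem leaves_pos (F : Ex K I) : 1 ≤ leaves F := by
  induction F with
  | var v => exact le_refl 1
  | const c => exact le_refl 1
  | add F G ihF ihG => rw [leaves]; omega
  | mul F G ihF ihG => rw [leaves]; omega

theorem conv_L_leaves {V : Type} [DecidableEq V] [Fintype V] (e : V → I) (F : Ex K I) :
    AF.L (conv e F) ≤ leaves F := by
  induction F with
  | var v =>
    unfold conv
    by_cases h : ∃ i, e i = v
    · rw [dif_pos h]; simp [AF.L, leaves]
    · rw [dif_neg h]; simp [AF.L, leaves]
  | const c => simp [conv, AF.L, leaves]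
  | add F G ihF ihG => simp only [conv, AF.L, leaves]; omega
  | mul F G ihF ihG => simp only [conv, AF.L, leaves]; omega

theorem conv_shr (v : Fin n → I) (W W' : Finset (Fin n)) (hW : W' ⊆ W)
    (he : Function.Injective fun i : ↥W' => v i.1) (F : Ex K I) :
    AF.shr (conv (fun i : ↥W' => v i.1) F) ≤ sharing v W F := by
  induction F with
  | var u =>
    unfold conv
    split_ifs
    · simp [AF.shr]
    · simp [AF.shr]
  | const c => simp [conv, AF.shr]
  | add F G ihF ihG => simp only [conv, AF.shr, sharing]; omega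
  | mul F G ihF ihG =>
    simp only [conv, AF.shr, sharing]
    have h3 : (AF.occ (conv (fun i : ↥W' => v i.1) F) ∩
        AF.occ (conv (fun i : ↥W' => v i.1) G)).card ≤ (both v W F G).card := by
      apply card_le_card_of_injOn (fun i => i.1)
      · intro i hi
        rw [mem_coe, mem_inter, mem_occ_conv _ he, mem_occ_conv _ he] at hi
        rw [mem_coe, both, mem_filter]
        exact ⟨hW i.2, hi⟩
      · intro i _ i' _ hii
        exact Subtype.ext hii
    omega

theorem form_lower (F : Ex K I) (v : Fin n → I) (hv : Function.Injective v)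
    (W : Finset (Fin n))
    (hfull : ∀ W' ⊆ W, ∀ Y : Finset ↥W', 2 * Y.card = W'.card → ∃ ρ : I → K, ∀ r,
      RkLe Y r (fun x => F.eval (point (fun i : ↥W' => v i.1) ρ x)) → 2 ^ Y.card ≤ r)
    (h i j : ℕ) (hij : i + j + 1 ≤ h) (hWc : 4 ^ h ≤ W.card) :
    i * j ≤ (Nat.log 2 (leaves F) + 1) + 2 * h ∨
      2 ^ (h - i - j - 1) ≤ (Nat.log 2 (leaves F) + 1) + sharing v W F := by
  classical
  have h4 : (4 : ℕ) ^ h = 2 ^ (2 * h) := by rw [show (4 : ℕ) = 2 ^ 2 by norm_num, ← pow_mul]
  rw [h4] at hWc
  obtain ⟨W', hW'W, hW⟩ := exists_subset_card_eq hWc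
  have he : Function.Injective fun i : ↥W' => v i.1 := fun a b h => Subtype.ext (hv h)
  refine tracked_lower h i j hij (by rw [Fintype.card_coe, hW])
    (conv (fun i : ↥W' => v i.1) F) _ _
    ((conv_L_leaves _ _).trans (Nat.lt_pow_succ_log_self (by norm_num) _).le)
    (conv_shr v W W' hW'W he F) ?_
  intro Y hY
  obtain ⟨ρ, hρ⟩ := hfull W' hW'W Y (by rw [hY, hW])
  refine ⟨ρ, fun N hN => hρ N ?_⟩
  have : (fun x => F.eval (point (fun i : ↥W' => v i.1) ρ x)) =
      fun x => AF.eval ρ x (conv (fun i : ↥W' => v i.1) F) :=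
    funext fun x => (conv_eval _ _ _ _).symm
  rw [this]
  exact hN

/-- The asymptotic form: few leaves or much sharing. -/
theorem size_or_share (ε : ℝ) (hε : 0 < ε) (hε' : ε ≤ 1 / 2) : ∃ N₀ : ℕ,
    ∀ (K I : Type) [Field K] [DecidableEq I] (n : ℕ) (F : Ex K I) (v : Fin n → I),
      Function.Injective v → ∀ W : Finset (Fin n), N₀ ≤ W.card →
      (∀ W' ⊆ W, ∀ Y : Finset ↥W', 2 * Y.card = W'.card → ∃ ρ : I → K, ∀ r,
        RkLe Y r (fun x => F.eval (point (fun i : ↥W' => v i.1) ρ x)) → 2 ^ Y.card ≤ r) →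
        (2 : ℝ) ^ (ε ^ 2 / 8 * (Nat.log 2 W.card : ℝ) ^ 2) ≤ 2 * leaves F ∨
        (W.card : ℝ) ^ (1 / 2 - ε) < sharing v W F := by
  obtain ⟨N₀, hN₀⟩ := asym ε hε hε'
  refine ⟨N₀, fun K I _ _ n F v hv W hW hfull => ?_⟩
  by_cases hsh : (W.card : ℝ) ^ (1 / 2 - ε) < sharing v W F
  · exact Or.inr hsh
  · left
    push Not at hsh
    have h1 := hN₀ W.card (Nat.log 2 (leaves F) + 1) (sharing v W F) hW hsh (by
      intro h i j hij h4
      rcases form_lower F v hv W hfull h i j hij h4 with h5 | h5
      · exact Or.inl h5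
      · right
        refine h5.trans ?_
        rw [Nat.add_mul, Nat.one_mul, Nat.mul_add, Nat.mul_one]
        generalize sharing v W F * Nat.log 2 (leaves F) = z
        omega)
    have h2 : (2 : ℝ) ^ (ε ^ 2 / 8 * (Nat.log 2 W.card : ℝ) ^ 2) ≤
        2 ^ ((Nat.log 2 (leaves F) + 1 : ℕ) : ℝ) :=
      Real.rpow_le_rpow_of_exponent_le (by norm_num) h1
    refine h2.trans ?_
    rw [Real.rpow_natCast, pow_succ]
    have h3 : 2 ^ Nat.log 2 (leaves F) ≤ leaves F :=
      Nat.pow_log_le_self 2 (by have := leaves_pos F; omega)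
    have h4 : (2 : ℝ) ^ Nat.log 2 (leaves F) ≤ leaves F := by exact_mod_cast h3
    linarith

end Pool.Agent.TH708.Ash
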