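import Pool.Agent.TH708.Ash.Core
import Pool.Agent.TH708.Ash.Num
import Pool.Agent.TH708.Ari.UpDefs

set_option linter.unusedSectionVars false
set_option autoImplicit false

/-!
# Arithmetic circuits whose product gates share few variables
-/

namespace Pool.Agent.TH708.Ash

open Finset
open Pool.Agent.TH708.Ari

section Conv

variable {K I V : Type} [Field K] [DecidableEq I] [DecidableEq V] [Fintype V] (e : V → I)

open Classical in
/-- Splitting the variables into tracked ones, given by `e`, and side inputs. -/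
noncomputable def conv : Ex K I → AF V (I → K) K
  | Ex.var v => if h : ∃ i, e i = v then AF.var h.choose else AF.side fun ρ => ρ v
  | Ex.const c => AF.side fun _ => c
  | Ex.add F G => AF.add (conv F) (conv G)
  | Ex.mul F G => AF.mul (conv F) (conv G)

theorem conv_eval (F : Ex K I) (ρ : I → K) (x : V → Bool) :
    AF.eval ρ x (conv e F) = F.eval (point e ρ x) := by
  induction F with
  | var v =>
    unfold conv
    by_cases h : ∃ i, e i = v
    · rw [dif_pos h]
      simp only [AF.eval, Ex.eval, point]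
      rw [dif_pos h]
    · rw [dif_neg h]
      simp only [AF.eval, Ex.eval, point]
      rw [dif_neg h]
  | const c => rfl
  | add F G ihF ihG => simp only [conv, AF.eval, Ex.eval, ihF, ihG]
  | mul F G ihF ihG => simp only [conv, AF.eval, Ex.eval, ihF, ihG]

theorem mem_occ_conv (he : Function.Injective e) (F : Ex K I) (i : V) :
    i ∈ AF.occ (conv e F) ↔ 1 ≤ F.deg (e i) := by
  induction F with
  | var v =>
    unfold conv
    by_cases h : ∃ i, e i = v
    · rw [dif_pos h]
      simp only [AF.occ, Ex.deg, mem_singleton]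
      have hs := h.choose_spec
      constructor
      · intro hi
        rw [if_pos (by rw [hi, hs])]
      · intro hi
        split_ifs at hi with h1
        · exact he (h1.symm.trans hs.symm)
        · omega
    · rw [dif_neg h]
      simp only [AF.occ, Ex.deg]
      rw [if_neg (fun hv => h ⟨i, hv.symm⟩)]
      simp
  | const c => simp [conv, AF.occ, Ex.deg]
  | add F G ihF ihG =>
    simp only [conv, AF.occ, Ex.deg, mem_union, ihF, ihG]
    omega
  | mul F G ihF ihG =>
    simp only [conv, AF.occ, Ex.deg, mem_union, ihF, ihG]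
    omega

theorem conv_L (F : Ex K I) : AF.L (conv e F) ≤ 2 ^ F.depth := by
  induction F with
  | var v =>
    unfold conv
    by_cases h : ∃ i, e i = v
    · rw [dif_pos h]; simp [AF.L, Ex.depth]
    · rw [dif_neg h]; simp [AF.L, Ex.depth]
  | const c => simp [conv, AF.L, Ex.depth]
  | add F G ihF ihG =>
    simp only [conv, AF.L, Ex.depth]
    have h1 : 2 ^ F.depth ≤ 2 ^ max F.depth G.depth :=
      Nat.pow_le_pow_right (by norm_num) (le_max_left _ _)
    have h2 : 2 ^ G.depth ≤ 2 ^ max F.depth G.depth :=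
      Nat.pow_le_pow_right (by norm_num) (le_max_right _ _)
    rw [pow_succ]; omega
  | mul F G ihF ihG =>
    simp only [conv, AF.L, Ex.depth]
    have h1 : 2 ^ F.depth ≤ 2 ^ max F.depth G.depth :=
      Nat.pow_le_pow_right (by norm_num) (le_max_left _ _)
    have h2 : 2 ^ G.depth ≤ 2 ^ max F.depth G.depth :=
      Nat.pow_le_pow_right (by norm_num) (le_max_right _ _)
    rw [pow_succ]; omega

end Conv

variable {K I : Type} [Field K] [DecidableEq I] {n : ℕ}

/-- The indices in `W` whose variables `v i` are read below both nodes `a` and `b`. -/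
def common (C : Ckt K I) (v : Fin n → I) (W : Finset (Fin n)) (a b : C.G) : Finset (Fin n) :=
  W.filter fun i => 1 ≤ (C.tree a).deg (v i) ∧ 1 ≤ (C.tree b).deg (v i)

theorem shr_tree (C : Ckt K I) (v : Fin n → I) (W W' : Finset (Fin n)) (hW : W' ⊆ W) (μ : ℕ)
    (hμ : ∀ g a b, C.kind g = Kind.mul a b → (common C v W a b).card ≤ μ)
    (he : Function.Injective fun i : ↥W' => v i.1) :
    ∀ (k : ℕ) (g : C.G), C.rank g = k →
      AF.shr (conv (fun i : ↥W' => v i.1) (C.tree g)) ≤ μ * (C.tree g).depth := by
  intro k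
  induction k using Nat.strong_induction_on with
  | _ k ih =>
    intro g hg
    rw [Ckt.tree]
    split
    · next i h =>
      unfold conv
      split_ifs
      · simp [AF.shr]
      · simp [AF.shr]
    · next c h => simp [conv, AF.shr]
    · next a b h =>
      have hr := C.add_lt g a b h
      have h1 := ih (C.rank a) (by omega) a rfl
      have h2 := ih (C.rank b) (by omega) b rfl
      simp only [conv, AF.shr, Ex.depth]
      have h4 : μ * (C.tree a).depth ≤ μ * max (C.tree a).depth (C.tree b).depth :=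
        Nat.mul_le_mul_left _ (le_max_left _ _)
      have h5 : μ * (C.tree b).depth ≤ μ * max (C.tree a).depth (C.tree b).depth :=
        Nat.mul_le_mul_left _ (le_max_right _ _)
      rw [Nat.mul_succ]
      omega
    · next a b h =>
      have hr := C.mul_lt g a b h
      have h1 := ih (C.rank a) (by omega) a rfl
      have h2 := ih (C.rank b) (by omega) b rfl
      simp only [conv, AF.shr, Ex.depth]
      have h3 : (AF.occ (conv (fun i : ↥W' => v i.1) (C.tree a)) ∩
          AF.occ (conv (fun i : ↥W' => v i.1) (C.tree b))).card ≤ μ := by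
        refine le_trans ?_ (hμ g a b h)
        apply card_le_card_of_injOn (fun i => i.1)
        · intro i hi
          rw [mem_coe, mem_inter, mem_occ_conv _ he, mem_occ_conv _ he] at hi
          rw [mem_coe, common, mem_filter]
          exact ⟨hW i.2, hi⟩
        · intro i _ i' _ hii
          exact Subtype.ext hii
      have h4 : μ * (C.tree a).depth ≤ μ * max (C.tree a).depth (C.tree b).depth :=
        Nat.mul_le_mul_left _ (le_max_left _ _)
      have h5 : μ * (C.tree b).depth ≤ μ * max (C.tree a).depth (C.tree b).depth :=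
        Nat.mul_le_mul_left _ (le_max_right _ _)
      rw [Nat.mul_succ]
      omega

theorem ckt_lower (C : Ckt K I) (v : Fin n → I) (hv : Function.Injective v)
    (W : Finset (Fin n)) (μ : ℕ)
    (hμ : ∀ g a b, C.kind g = Kind.mul a b → (common C v W a b).card ≤ μ)
    (hfull : ∀ W' ⊆ W, ∀ Y : Finset ↥W', 2 * Y.card = W'.card → ∃ ρ : I → K, ∀ r,
      RkLe Y r (fun x => C.eval (point (fun i : ↥W' => v i.1) ρ x)) → 2 ^ Y.card ≤ r)
    (h i j : ℕ) (hij : i + j + 1 ≤ h) (hWc : 4 ^ h ≤ W.card) :
    i * j ≤ C.depth + 2 * h ∨ 2 ^ (h - i - j - 1) ≤ (μ + 1) * C.depth := by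
  classical
  have h4 : (4 : ℕ) ^ h = 2 ^ (2 * h) := by rw [show (4 : ℕ) = 2 ^ 2 by norm_num, ← pow_mul]
  rw [h4] at hWc
  obtain ⟨W', hW'W, hW⟩ := exists_subset_card_eq hWc
  have he : Function.Injective fun i : ↥W' => v i.1 := fun a b h => Subtype.ext (hv h)
  have hmu : (μ + 1) * C.depth = C.depth + μ * C.depth := by ring
  rw [hmu]
  refine tracked_lower h i j hij (by rw [Fintype.card_coe, hW])
    (conv (fun i : ↥W' => v i.1) (C.tree C.out)) C.depth (μ * C.depth) (conv_L _ _)
    (shr_tree C v W W' hW'W μ hμ he _ C.out rfl) ?_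
  intro Y hY
  obtain ⟨ρ, hρ⟩ := hfull W' hW'W Y (by rw [hY, hW])
  refine ⟨ρ, fun N hN => hρ N ?_⟩
  have : (fun x => C.eval (point (fun i : ↥W' => v i.1) ρ x)) =
      fun x => AF.eval ρ x (conv (fun i : ↥W' => v i.1) (C.tree C.out)) :=
    funext fun x => (conv_eval _ _ _ _).symm
  rw [this]
  exact hN

/-- The asymptotic form. -/
theorem depth_or_share (ε : ℝ) (hε : 0 < ε) (hε' : ε ≤ 1 / 2) : ∃ N₀ : ℕ,
    ∀ (K I : Type) [Field K] [DecidableEq I] (n : ℕ) (C : Ckt K I) (v : Fin n → I),
      Function.Injective v → ∀ W : Finset (Fin n), N₀ ≤ W.card →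
      (∀ W' ⊆ W, ∀ Y : Finset ↥W', 2 * Y.card = W'.card → ∃ ρ : I → K, ∀ r,
        RkLe Y r (fun x => C.eval (point (fun i : ↥W' => v i.1) ρ x)) → 2 ^ Y.card ≤ r) →
        ε ^ 2 / 8 * (Nat.log 2 W.card : ℝ) ^ 2 ≤ C.depth ∨
        ∃ g a b, C.kind g = Kind.mul a b ∧
          (W.card : ℝ) ^ (1 / 2 - ε) < (common C v W a b).card := by
  obtain ⟨N₀, hN₀⟩ := asym ε hε hε'
  refine ⟨N₀, fun K I _ _ n C v hv W hW hfull => ?_⟩
  by_cases hsh : ∃ g a b, C.kind g = Kind.mul a b ∧
      (W.card : ℝ) ^ (1 / 2 - ε) < (common C v W a b).card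
  · exact Or.inr hsh
  · left
    push Not at hsh
    refine hN₀ W.card C.depth ⌊(W.card : ℝ) ^ (1 / 2 - ε)⌋₊ hW (Nat.floor_le (by positivity)) ?_
    intro h i j hij h4
    exact ckt_lower C v hv W _ (fun g a b hg => Nat.le_floor (hsh g a b hg)) hfull h i j hij h4

end Pool.Agent.TH708.Ash
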